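import Pool.Agent.Helper95.BG.Goals

/-!
# Boolean grammars: description of a function computable in small space
-/

namespace Pool.Agent.Helper69.BG.PkLET

open Pool.Agent.Helper65.LinSpace Pool.Agent.Helper78 Pool.Agent.Helper78.Mpc
  Pool.Agent.Helper78.Xor Finset Filter Pool.Agent.Helper95.BG

theorem sd_inj : ∀ (a a' b b' : List Bool), Mpc.sd a ++ b = Mpc.sd a' ++ b' → a = a' ∧ b = b'
  | [], [], b, b', h => by
    simp only [Mpc.sd, List.cons_append, List.nil_append, List.cons.injEq, true_and] at h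
    exact ⟨rfl, h⟩
  | [], x :: a', b, b', h => by
    simp [Mpc.sd] at h
  | x :: a, [], b, b', h => by
    simp [Mpc.sd] at h
  | x :: a, x' :: a', b, b', h => by
    simp only [Mpc.sd, List.cons_append, List.cons.injEq, true_and] at h
    obtain ⟨h1, h2⟩ := sd_inj a a' b b' h.2
    exact ⟨by rw [h.1, h1], h2⟩

theorem bits_inj {i j : ℕ} (h : i.bits = j.bits) : i = j := by
  have h1 : Nat.digits 2 i = Nat.digits 2 j := by
    rw [Nat.digits_two_eq_bits, Nat.digits_two_eq_bits, h]
  exact Nat.digits_inj_iff.1 h1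

theorem thm (uni : G_UNI) (asy : G_ASY) : G_LET := by
  classical
  intro T _ f C ε c hε hf
  haveI := Fintype.ofFinite T
  obtain ⟨N, ⟨φ⟩⟩ := Finite.exists_equiv_fin T
  choose e cc h using fun t => uni _ _ (hf t)
  set K : ℕ := ∑ t, cc t + c + 8 with hK
  obtain ⟨hA, hB, -⟩ := asy
  obtain ⟨n₀, hn⟩ := eventually_atTop.1 ((hA K).and (hB C ε K hε))
  have he : ∀ t, e t < ∑ t, e t + 1 := fun t =>
    Nat.lt_succ_of_le (single_le_sum (f := e) (fun _ _ => Nat.zero_le _) (mem_univ t))
  have hcc : ∀ t, cc t + c + 8 ≤ K := fun t => by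
    have := single_le_sum (f := cc) (fun _ _ => Nat.zero_le _) (mem_univ t)
    omega
  refine ⟨N, ∑ t, e t + 1, tab (∑ t, e t + 1) N
    (fun k => if hk : k < N then e (φ.symm ⟨k, hk⟩) else 0), n₀, fun t => (φ t : ℕ),
    fun t => (φ t).2, fun t t' htt => φ.injective (Fin.ext htt), fun k hk => ⟨φ.symm ⟨k, hk⟩, by
      simp⟩, ?_⟩
  intro w y hw hy i hi t
  obtain ⟨⟨ha1, ha2, ha3, ha4, ha5⟩, hb⟩ := hn w.length hw
  have hdig : dig (∑ t, e t + 1) (tab (∑ t, e t + 1) N
      (fun k => if hk : k < N then e (φ.symm ⟨k, hk⟩) else 0)) (φ t : ℕ) = e t := by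
    rw [dig_tab _ (φ t).2]
    · rw [dif_pos (φ t).2]
      simp
    · intro k hk
      rw [dif_pos hk]
      exact he _
  have hu : uN i (num w) (num y) = num (Mpc.sd i.bits ++ (Mpc.sd w ++ y)) := by
    unfold uN
    rw [bitsN_eq, sdN_num, sdN_num, catN_num, catN_num]
  have hlen : (Mpc.sd i.bits ++ (Mpc.sd w ++ y)).length ≤ K * (w.length + 1) := by
    have h1 := length_bits (lt_trans hi ha3)
    rw [List.length_append, List.length_append, length_sd, length_sd]
    have h2 := ll_le w.length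
    have h3 : (c + 8) * (w.length + 1) ≤ K * (w.length + 1) :=
      Nat.mul_le_mul_right _ (by have := hcc t; omega)
    have h4 : (c + 8) * (w.length + 1) = c * w.length + c + 8 * w.length + 8 := by ring
    omega
  have hspec := h t (Mpc.sd i.bits ++ (Mpc.sd w ++ y)) (LW w.length) (2 ^ (2 * ll w.length)) ?_ ?_
  · unfold isL
    rw [hdig, hu, hspec]
    constructor
    · rintro ⟨i', w', y', h1, h2⟩
      obtain ⟨h3, h4⟩ := sd_inj _ _ _ _ h1
      obtain ⟨h5, h6⟩ := sd_inj _ _ _ _ h4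
      rw [bits_inj h3, h5, h6]
      exact h2
    · intro h1
      exact ⟨i, w, y, rfl, h1⟩
  · refine le_trans ?_ (hb _ hlen)
    have h1 : (cc t : ℝ) ≤ K := by
      have := hcc t
      exact_mod_cast (by omega : cc t ≤ K)
    refine mul_le_mul_of_nonneg_right h1 ?_
    have := le_max_right (C * (((Mpc.sd i.bits ++ (Mpc.sd w ++ y)).length : ℝ) + 1) ^ (1 - ε)) 0
    linarith
  · have := hcc t
    omega

end Pool.Agent.Helper69.BG.PkLET
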